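import Pool.Agent.H20.MT.Stmts
import Pool.Agent.H85.Rho.Defs

/-!
# Project PNE: prime number theorem with error `O(x / log x)`, and dense admissible sets for all `y`

Definitions and statements of all modules. Every module proves one of the propositions `S_...`
(possibly from others given as hypotheses).
-/

set_option autoImplicit false

namespace PNE
open Finset Pool.Agent.H85.Rho

/-! ## Part 1: analytic part. Principal character modulo 1 -/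

/-- Dirichlet series of `log^j` -/
noncomputable def Z (j : ℕ) (s : ℂ) : ℂ := MTA.Lj (1 : DirichletCharacter ℂ 1) j s

/-- Dirichlet series of `Λ log^j` -/
noncomputable def V (j : ℕ) (s : ℂ) : ℂ := MTA.Fj (1 : DirichletCharacter ℂ 1) j s

/-- Dirichlet series of `(Λ - 1) log^k` -/
noncomputable def D (k : ℕ) (s : ℂ) : ℂ := V k s - Z k s

/-- `log (|t| + 3)` -/
noncomputable def Lg (t : ℝ) : ℝ := Real.log (|t| + 3)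

/-- smooth approximation of the indicator function of `[a,c]`, transitions of length `η` -/
noncomputable def BB (a c η w : ℝ) : ℝ :=
  Real.smoothTransition ((w - a) / η) * Real.smoothTransition ((c - w) / η)

/-- upper bounds for the derivatives of zeta -/
def S_ZJ : Prop := ∀ j : ℕ, ∃ C : ℝ, 0 < C ∧ ∀ s : ℂ, 1 < s.re → s.re ≤ 2 → 1 ≤ |s.im| →
  ‖Z j s‖ ≤ C * (Lg s.im) ^ (j + 1)

/-- lower bound for zeta (3-4-1) -/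
def S_ZLB : Prop := ∃ c : ℝ, 0 < c ∧ c ≤ 1 ∧ ∀ s : ℂ, 1 < s.re → s.re ≤ 2 → 1 ≤ |s.im| →
  c / (Lg s.im) ^ 7 ≤ ‖Z 0 s‖

/-- upper bounds for the derivatives of the logarithmic derivative, far from the pole -/
def S_VJ : Prop := ∀ k : ℕ, ∃ C : ℝ, 0 < C ∧ ∀ s : ℂ, 1 < s.re → s.re ≤ 2 → 1 ≤ |s.im| →
  ‖V k s‖ ≤ C * (Lg s.im) ^ (9 * (k + 1))

/-- near the pole, by compactness -/
def S_DC : Prop := ∀ k : ℕ, ∃ C : ℝ, 0 < C ∧ ∀ s : ℂ, 1 < s.re → s.re ≤ 2 → |s.im| ≤ 1 →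
  ‖D k s‖ ≤ C

def S_DB : Prop := ∀ k : ℕ, ∃ C : ℝ, 0 < C ∧ ∀ s : ℂ, 1 < s.re → s.re ≤ 2 →
  ‖D k s‖ ≤ C * (Lg s.im) ^ (9 * (k + 1))

/-- Fourier representation of the test function -/
def S_BF : Prop := ∀ k : ℕ, ∃ C : ℝ, 0 < C ∧ ∀ lam σ η a c : ℝ, 4 ≤ lam → 1 ≤ σ → σ ≤ 2 →
  0 < η → η ≤ 1 → -1 ≤ a → c ≤ 1 → ∃ g : ℝ → ℂ,
  Continuous g ∧ (∀ u, ‖g u‖ ≤ C / η ^ 2 / (1 + u ^ 2)) ∧
  ∀ w : ℝ, ((BB a c η w * Real.exp (σ * w) / (1 + w / lam) ^ k : ℝ) : ℂ) =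
    ∫ u, g u * Complex.exp (2 * Real.pi * Complex.I * u * w)

/-- sums as integrals of Dirichlet series -/
def S_REPR : Prop := ∀ (k : ℕ) (σ lam : ℝ), 1 < σ → ∀ g : ℝ → ℂ, MeasureTheory.Integrable g →
  ∀ Φ : ℝ → ℝ, (∀ w, ((Φ w : ℝ) : ℂ) = ∫ u, g u * Complex.exp (2 * Real.pi * Complex.I * u * w)) →
  ∀ N : ℕ, (∀ n : ℕ, N < n → Φ (Real.log n - lam) = 0) →
    ∑ n ∈ Icc 1 N, (((ArithmeticFunction.vonMangoldt n - 1) * (Real.log n) ^ k *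
      Real.exp (-(σ * Real.log n)) * Φ (Real.log n - lam) : ℝ) : ℂ) =
    ∫ u, g u * Complex.exp (-(2 * Real.pi * Complex.I * u * lam)) *
      D k ((σ : ℂ) - 2 * Real.pi * u * Complex.I)

/-- smoothed sums -/
def S_SMO : Prop := ∃ C : ℝ, 0 < C ∧ ∀ lam η a c : ℝ, 4 ≤ lam → 0 < η → η ≤ 1 → -1 ≤ a → c ≤ 1 →
  |∑ n ∈ Icc 1 ⌊Real.exp (lam + 1)⌋₊, (ArithmeticFunction.vonMangoldt n - 1) *
    BB a c η (Real.log n - lam)| ≤ C * Real.exp lam / (lam ^ 3 * η ^ 2)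

/-- dyadic intervals -/
def S_STEP : Prop := ∃ C : ℝ, 0 < C ∧ ∀ x : ℝ, 2 ≤ x →
  |Chebyshev.psi x - Chebyshev.psi (x / 2) - x / 2| ≤ C * x / Real.log x

def S_PSI : Prop := ∃ C : ℝ, 0 < C ∧ ∀ x : ℝ, 2 ≤ x → |Chebyshev.psi x - x| ≤ C * x / Real.log x

/-- the prime number theorem with two terms -/
def S_PIX : Prop := ∃ C : ℝ, 0 < C ∧ ∀ x : ℝ, 2 ≤ x →
  |(Nat.primeCounting ⌊x⌋₊ : ℝ) - x / Real.log x| ≤ C * x / (Real.log x) ^ 2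

/-! ## Part 2: admissible sets -/

/-- `w(y) = ⌊(log log y)^(1/5)⌋` -/
noncomputable def ww (y : ℕ) : ℕ := ⌊(Real.log (Real.log y)) ^ (1 / 5 : ℝ)⌋₊

def S_MASSU : Prop := ∃ K : ℝ, 1 ≤ K ∧ ∀ w M : ℕ, 1 ≤ w → 2 ≤ M →
  1 - (K * w * Real.log M) ^ w / M ≤ ∑ m ∈ Sm w M, fw w m / m

def S_LOGU : Prop := ∀ w M : ℕ, 2 ≤ w → Real.exp ((w : ℝ) ^ 3) ≤ M →
  Real.log w / 2 - 2 ≤ ∑ m ∈ Sm w M, fw w m / m * Real.log m

def S_SURV : Prop := ∃ c : ℝ, 0 < c ∧ ∃ y0 : ℕ, ∀ y : ℕ, y0 ≤ y →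
  (Nat.primeCounting y : ℝ) +
      c * y * Real.log (Real.log (Real.log y)) / (Real.log y) ^ 2 ≤
    ∑ m ∈ Sm (ww y) (MM y), fw (ww y) m *
      ((Nat.primeCounting (y / m) : ℝ) - Nat.primeCounting (PP y))

def S_COVU : Prop := ∃ z0 : ℕ, ∀ z : ℕ, z0 ≤ z → ∀ w : ℕ, (w : ℝ) ≤ Real.log z → ∀ J : ℕ,
    (J : ℝ) ≤ z * Real.exp (2 * (Real.log z) ^ (1 / 4 : ℝ)) →
    ∃ h : ℕ → ℕ, (((Finset.range (J + 1)).filter (fun j => ∀ l ∈ pr w z,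
      ¬ j ≡ h l [MOD l])).card : ℝ) ≤ ((J : ℝ) + z) / (Real.log z) ^ (3 / 2 : ℝ)

def S_COST1U : Prop := ∃ C : ℝ, 0 < C ∧ ∃ y0 : ℕ, ∀ y : ℕ, y0 ≤ y → ∀ w : ℕ,
    (w : ℝ) ≤ Real.log (Real.log y) / 2 → ∀ q ∈ pr (PP y) (QQ y),
    ∃ c : ℕ, (((Finset.Icc 1 y).filter (fun n => n ≡ c [MOD q] ∧
        ∀ p ∈ pr w (PP y), ¬ p ∣ n)).card : ℝ) ≤
      C * (y / q) / (Real.log y * (Real.log (Real.log y)) ^ (1 / 2 : ℝ))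

def S_COSTU : Prop := ∀ ε : ℝ, 0 < ε → ∃ y0 : ℕ, ∀ y : ℕ, y0 ≤ y → ∀ w : ℕ,
    (w : ℝ) ≤ Real.log (Real.log y) / 2 → ∃ c : ℕ → ℕ,
    (∑ q ∈ pr (PP y) (QQ y),
      (((Finset.Icc 1 y).filter (fun n => n ≡ c q [MOD q] ∧
        ∀ p ∈ pr w (PP y), ¬ p ∣ n)).card : ℝ)) ≤ ε * y / (Real.log y) ^ 2

def S_ALLY : Prop := ∃ c : ℝ, 0 < c ∧ ∃ y0 : ℕ, ∀ y : ℕ, y0 ≤ y →
  ∃ A : Finset ℕ, A ⊆ Finset.Icc 1 y ∧ Adm A ∧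
    (Nat.primeCounting y : ℝ) +
      c * y * Real.log (Real.log (Real.log y)) / (Real.log y) ^ 2 ≤ A.card

end PNE
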